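import Pool.Agent.W536.XI.Stm

/-!
Project XI (MP_023270_nt), task MOME: assembly of the moment bounds (Paley-Zygmund).
-/

open Complex MeasureTheory Filter Topology
open W536.XI

namespace Pool.Agent.W27.XI

theorem P_cont (M : ℕ) (a : ℕ → ℝ) : Continuous (P M a) := by
  unfold P
  fun_prop

theorem Q_cont (M : ℕ) (a : ℕ → ℝ) (r : ℝ) : Continuous (Q M a r) := by
  unfold Q
  apply intervalIntegral.continuous_parametric_intervalIntegral_of_continuous'
  have h := P_cont M a
  have : Function.uncurry (fun y x : ℝ => ‖P M a (y + x)‖ ^ 2) =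
      fun z : ℝ × ℝ => ‖P M a (z.1 + z.2)‖ ^ 2 := by
    funext z; rfl
  rw [this]
  fun_prop

theorem Q_nonneg (M : ℕ) (a : ℕ → ℝ) (r y : ℝ) (hr : 0 ≤ r) : 0 ≤ Q M a r y := by
  unfold Q
  apply intervalIntegral.integral_nonneg (by linarith)
  intro x _
  positivity

/-- Paley-Zygmund in the form needed here. -/
theorem pz (T θ B : ℝ) (hT : 0 < T) (hθ : 0 < θ) (hB : 0 < B) (q : ℝ → ℝ) (hq : Continuous q)
    (h0 : ∀ y, 0 ≤ q y) (h1 : 2 * θ * T ≤ ∫ y in T..(2 * T), q y)
    (h2 : (∫ y in T..(2 * T), q y ^ 2) ≤ B * T) :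
    ∃ A : Set ℝ, MeasurableSet A ∧ A ⊆ Set.Icc T (2 * T) ∧ (∀ y ∈ A, θ ≤ q y) ∧
      ENNReal.ofReal (θ ^ 2 * T / B) ≤ volume A := by
  set A : Set ℝ := Set.Icc T (2 * T) ∩ q ⁻¹' (Set.Ici θ) with hA
  have hAm : MeasurableSet A :=
    (isClosed_Icc.inter (isClosed_Ici.preimage hq)).measurableSet
  have hAsub : A ⊆ Set.Icc T (2 * T) := Set.inter_subset_left
  have hAfin : volume A ≠ ⊤ := by
    have : volume A ≤ volume (Set.Icc T (2 * T)) := measure_mono hAsub
    rw [Real.volume_Icc] at this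
    exact ne_top_of_le_ne_top ENNReal.ofReal_ne_top this
  refine ⟨A, hAm, hAsub, fun y hy => hy.2, ?_⟩
  set δ : ℝ := θ / B with hδ
  have hδ0 : 0 < δ := div_pos hθ hB
  have hTT : T ≤ 2 * T := by linarith
  -- pointwise
  have hpt : ∀ y ∈ Set.Icc T (2 * T),
      q y ≤ (θ + δ / 2 * q y ^ 2) + A.indicator (fun _ => 1 / (2 * δ)) y := by
    intro y hy
    by_cases hyA : y ∈ A
    · rw [Set.indicator_of_mem hyA]
      have h3 : q y ≤ δ / 2 * q y ^ 2 + 1 / (2 * δ) := by
        have h4 : 0 ≤ (δ * q y - 1) ^ 2 / (2 * δ) := by positivity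
        have h5 : (δ * q y - 1) ^ 2 / (2 * δ) = δ / 2 * q y ^ 2 - q y + 1 / (2 * δ) := by
          field_simp
          ring
        linarith
      linarith
    · rw [Set.indicator_of_notMem hyA]
      have h3 : q y < θ := by
        by_contra h
        exact hyA ⟨hy, not_lt.mp h⟩
      have h4 : 0 ≤ δ / 2 * q y ^ 2 := by positivity
      linarith
  have hint1 : IntervalIntegrable q volume T (2 * T) := hq.intervalIntegrable _ _
  have hint2 : IntervalIntegrable (fun y => θ + δ / 2 * q y ^ 2) volume T (2 * T) := by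
    apply Continuous.intervalIntegrable
    fun_prop
  have hint3 : IntervalIntegrable (A.indicator (fun _ => 1 / (2 * δ))) volume T (2 * T) := by
    have hcst : IntervalIntegrable (fun _ : ℝ => 1 / (2 * δ)) volume T (2 * T) :=
      intervalIntegrable_const
    rw [intervalIntegrable_iff] at hcst ⊢
    exact hcst.indicator hAm
  have hmono : (∫ y in T..(2 * T), q y) ≤
      ∫ y in T..(2 * T), ((θ + δ / 2 * q y ^ 2) + A.indicator (fun _ => 1 / (2 * δ)) y) := by
    apply intervalIntegral.integral_mono_on hTT hint1 (hint2.add hint3)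
    exact hpt
  rw [intervalIntegral.integral_add hint2 hint3] at hmono
  have hI2 : (∫ y in T..(2 * T), (θ + δ / 2 * q y ^ 2)) =
      θ * T + δ / 2 * ∫ y in T..(2 * T), q y ^ 2 := by
    rw [intervalIntegral.integral_add]
    · rw [intervalIntegral.integral_const, intervalIntegral.integral_const_mul]
      simp only [smul_eq_mul]
      ring
    · exact intervalIntegrable_const
    · apply Continuous.intervalIntegrable
      fun_prop
  have hI3 : (∫ y in T..(2 * T), A.indicator (fun _ => 1 / (2 * δ)) y) ≤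
      volume.real A * (1 / (2 * δ)) := by
    rw [intervalIntegral.integral_of_le hTT, setIntegral_indicator hAm, setIntegral_const,
      smul_eq_mul]
    apply mul_le_mul_of_nonneg_right _ (by positivity)
    apply measureReal_mono Set.inter_subset_right hAfin
  rw [hI2] at hmono
  have h3 : δ / 2 * (∫ y in T..(2 * T), q y ^ 2) ≤ θ * T / 2 := by
    calc δ / 2 * (∫ y in T..(2 * T), q y ^ 2) ≤ δ / 2 * (B * T) := by
          apply mul_le_mul_of_nonneg_left h2 (by positivity)
      _ = θ * T / 2 := by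
          rw [hδ]; field_simp
  have h4 : θ * T / 2 ≤ volume.real A * (1 / (2 * δ)) := by linarith
  have h5 : θ ^ 2 * T / B ≤ volume.real A := by
    have h6 : θ * T / 2 * (2 * δ) ≤ volume.real A * (1 / (2 * δ)) * (2 * δ) :=
      mul_le_mul_of_nonneg_right h4 (by positivity)
    have h7 : volume.real A * (1 / (2 * δ)) * (2 * δ) = volume.real A := by
      field_simp
    have h8 : θ * T / 2 * (2 * δ) = θ ^ 2 * T / B := by
      rw [hδ]; field_simp
    rw [h7, h8] at h6
    exact h6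
  calc ENNReal.ofReal (θ ^ 2 * T / B) ≤ ENNReal.ofReal (volume.real A) :=
        ENNReal.ofReal_le_ofReal h5
    _ = volume A := by
        rw [Measure.real, ENNReal.ofReal_toReal hAfin]

/-- a large value of `P` inside the window -/
theorem exists_large (M : ℕ) (a : ℕ → ℝ) (r y κ : ℝ) (hr : 0 < r)
    (h : 2 * r * κ < Q M a r y) : ∃ u : ℝ, |u - y| ≤ r ∧ κ < ‖P M a u‖ ^ 2 := by
  by_contra hcon
  push Not at hcon
  have h1 : Q M a r y ≤ ∫ x in (-r)..r, κ := by
    unfold Q
    apply intervalIntegral.integral_mono_on (by linarith)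
    · apply Continuous.intervalIntegrable
      have h := P_cont M a
      fun_prop
    · exact intervalIntegrable_const
    · intro x hx
      apply hcon
      rw [abs_le]
      constructor
      · linarith [hx.1]
      · linarith [hx.2]
  rw [intervalIntegral.integral_const, smul_eq_mul] at h1
  nlinarith

theorem mome (hA : S_MOMA) (hB : S_MOMB) (hC : S_MOMC) (hD : S_MOMD) : S_MOM := by
  obtain ⟨c, C0, hc, hC⟩ := hC
  obtain ⟨CD0, hD⟩ := hD
  set C : ℝ := max C0 1 with hCdef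
  have hC1 : 1 ≤ C := le_max_right _ _
  have hC0 : C0 ≤ C := le_max_left _ _
  set CD : ℝ := max CD0 1 with hCDdef
  have hCD1 : 1 ≤ CD := le_max_right _ _
  have hCD0 : CD0 ≤ CD := le_max_left _ _
  set C' : ℝ := (4 + CD) * C ^ 2 + 1 with hC'
  have hC'pos : 0 < C' := by positivity
  set b0 : ℝ := max (max 2 (16 * Real.exp 3 * C ^ 2 / c)) (max (128 * Real.exp 6 * C ^ 4)
    (4 * ((1 / 2 + C) / Real.sqrt (c / 8)))) with hb0
  refine ⟨c ^ 2 / (4 * C'), Real.exp (20 * b0), by positivity, ?_⟩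
  intro T hT
  have hTpos : 0 < T := lt_of_lt_of_le (Real.exp_pos _) hT
  set b : ℝ := Real.log T / 20 with hb
  have hbb : b0 ≤ b := by
    rw [hb, le_div_iff₀ (by norm_num : (0:ℝ) < 20)]
    rw [Real.le_log_iff_exp_le hTpos]
    rwa [mul_comm]
  have hb2 : 2 ≤ b := le_trans (le_trans (le_max_left _ _) (le_max_left _ _)) hbb
  have hbA : 16 * Real.exp 3 * C ^ 2 / c ≤ b :=
    le_trans (le_trans (le_max_right _ _) (le_max_left _ _)) hbb
  have hbB : 128 * Real.exp 6 * C ^ 4 ≤ b :=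
    le_trans (le_trans (le_max_left _ _) (le_max_right _ _)) hbb
  have hbC : 4 * ((1 / 2 + C) / Real.sqrt (c / 8)) ≤ b :=
    le_trans (le_trans (le_max_right _ _) (le_max_right _ _)) hbb
  have hTb : T = Real.exp (20 * b) := by
    rw [hb, mul_div_cancel₀ _ (by norm_num : (20:ℝ) ≠ 0), Real.exp_log hTpos]
  have hbpos : 0 < b := by linarith
  set r : ℝ := 10 * b with hr
  have hrpos : 0 < r := by positivity
  have hr1 : 1 ≤ r := by rw [hr]; linarith
  set M : ℕ := ⌈Real.exp (b + 3)⌉₊ with hM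
  have hMge : Real.exp (b + 3) ≤ M := Nat.le_ceil _
  have hMle : (M : ℝ) ≤ 2 * Real.exp 3 * Real.exp b := by
    have h1 : (M : ℝ) < Real.exp (b + 3) + 1 := Nat.ceil_lt_add_one (Real.exp_pos _).le
    have h2 : (1 : ℝ) ≤ Real.exp (b + 3) := Real.one_le_exp (by linarith)
    have h3 : Real.exp (b + 3) = Real.exp 3 * Real.exp b := by
      rw [← Real.exp_add, add_comm]
    rw [h3] at h1 h2
    linarith
  have hM1 : 1 ≤ M := by
    have h2 : (1 : ℝ) ≤ Real.exp (b + 3) := Real.one_le_exp (by linarith)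
    have : (1 : ℝ) ≤ M := le_trans h2 hMge
    exact_mod_cast this
  have hMR1 : (1 : ℝ) ≤ M := by exact_mod_cast hM1
  obtain ⟨hC_1, hC_2, hC_3, hC_4⟩ := hC b hb2 M hMge
  set X : ℝ := Real.exp (b ^ 2 / 2 + b / 2) with hX
  have hXpos : 0 < X := Real.exp_pos _
  have hac : ∀ n, 0 ≤ ac b n := fun n => (Real.exp_pos _).le
  set SA : ℝ := ∑ n ∈ Finset.Icc 1 M, ac b n with hSA
  have hSA0 : 0 ≤ SA := Finset.sum_nonneg fun n _ => hac n
  have hSA1 : SA ≤ C * Real.exp (b ^ 2 / 4 + b / 2) :=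
    le_trans hC_3 (mul_le_mul_of_nonneg_right hC0 (Real.exp_pos _).le)
  have hSA2 : SA ^ 2 ≤ C ^ 2 * X * Real.exp (b / 2) := by
    calc SA ^ 2 ≤ (C * Real.exp (b ^ 2 / 4 + b / 2)) ^ 2 := by
          apply pow_le_pow_left₀ hSA0 hSA1
      _ = C ^ 2 * X * Real.exp (b / 2) := by
          rw [mul_pow, ← Real.exp_nat_mul, hX, mul_assoc, ← Real.exp_add]
          congr 2
          push_cast
          ring
  have hexp3 : (M : ℝ) * Real.exp (b / 2) ≤ 2 * Real.exp 3 * Real.exp (3 * b / 2) := by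
    calc (M : ℝ) * Real.exp (b / 2) ≤ 2 * Real.exp 3 * Real.exp b * Real.exp (b / 2) :=
          mul_le_mul_of_nonneg_right hMle (Real.exp_pos _).le
      _ = 2 * Real.exp 3 * Real.exp (3 * b / 2) := by
          rw [mul_assoc, ← Real.exp_add]
          congr 2
          ring
  -- first moment
  obtain ⟨hA1, hA2⟩ := hA M (ac b) r T hac hrpos hTpos hM1
  have hcond1 : 16 * Real.exp 3 * C ^ 2 * Real.exp (3 * b / 2) ≤ c * T := by
    have h1 : 16 * Real.exp 3 * C ^ 2 ≤ c * b := by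
      rwa [div_le_iff₀ hc, mul_comm b c] at hbA
    have h2 : b ≤ Real.exp (37 * b / 2) := by
      have := Real.add_one_le_exp (37 * b / 2)
      linarith
    calc 16 * Real.exp 3 * C ^ 2 * Real.exp (3 * b / 2) ≤ c * b * Real.exp (3 * b / 2) :=
          mul_le_mul_of_nonneg_right h1 (Real.exp_pos _).le
      _ ≤ c * Real.exp (37 * b / 2) * Real.exp (3 * b / 2) := by
          apply mul_le_mul_of_nonneg_right _ (Real.exp_pos _).le
          exact mul_le_mul_of_nonneg_left h2 hc.le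
      _ = c * T := by
          rw [hTb, mul_assoc, ← Real.exp_add]
          congr 2
          ring
  have hfirst : 2 * (c * r * X / 2) * T ≤ ∫ y in T..(2 * T), Q M (ac b) r y := by
    have h1 : 8 * r * M * SA ^ 2 ≤ r * T * c * X := by
      calc 8 * r * M * SA ^ 2 ≤ 8 * r * M * (C ^ 2 * X * Real.exp (b / 2)) := by
            apply mul_le_mul_of_nonneg_left hSA2 (by positivity)
        _ = 8 * r * C ^ 2 * X * (M * Real.exp (b / 2)) := by ring
        _ ≤ 8 * r * C ^ 2 * X * (2 * Real.exp 3 * Real.exp (3 * b / 2)) := by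
            apply mul_le_mul_of_nonneg_left hexp3 (by positivity)
        _ = (16 * Real.exp 3 * C ^ 2 * Real.exp (3 * b / 2)) * (r * X) := by ring
        _ ≤ (c * T) * (r * X) := mul_le_mul_of_nonneg_right hcond1 (by positivity)
        _ = r * T * c * X := by ring
    have h2 : 2 * r * T * (c * X) ≤ 2 * r * T * (∑ n ∈ Finset.Icc 1 M, ac b n ^ 2) := by
      apply mul_le_mul_of_nonneg_left hC_2 (by positivity)
    nlinarith [hA1, h1, h2]
  -- second moment
  have hsq : (∑ g ∈ Finset.Icc 1 M, ac b g ^ 2) ≤ C * X := by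
    have h1 := hC_1 1 1 le_rfl le_rfl
    have h2 : (∑ g ∈ Finset.Icc 1 M, ac b (g * 1) * ac b (g * 1)) =
        ∑ g ∈ Finset.Icc 1 M, ac b g ^ 2 := by
      apply Finset.sum_congr rfl
      intro g _
      rw [mul_one, sq]
    rw [h2] at h1
    have h3 : Real.exp (-(1 / 2) * (Real.log ((1 : ℕ) : ℝ) - Real.log ((1 : ℕ) : ℝ)) ^ 2) /
        Real.sqrt (((1 : ℕ) : ℝ) * ((1 : ℕ) : ℝ)) = 1 := by
      simp
    rw [h3, mul_one] at h1
    exact le_trans h1 (mul_le_mul_of_nonneg_right hC0 hXpos.le)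
  have hsq0 : 0 ≤ ∑ g ∈ Finset.Icc 1 M, ac b g ^ 2 :=
    Finset.sum_nonneg fun n _ => by positivity
  have hlogM : 1 + Real.log M ≤ r := by
    have h1 : Real.log M ≤ Real.log (2 * Real.exp 3 * Real.exp b) :=
      Real.log_le_log (by linarith) hMle
    have h2 : Real.log (2 * Real.exp 3 * Real.exp b) = Real.log 2 + 3 + b := by
      rw [Real.log_mul (by positivity) (by positivity), Real.log_mul (by norm_num) (by positivity),
        Real.log_exp, Real.log_exp]
    have h3 : Real.log 2 ≤ 1 := by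
      have := Real.log_two_lt_d9
      linarith
    rw [h2] at h1
    rw [hr]
    linarith
  have hlogM0 : 0 ≤ Real.log M := Real.log_nonneg hMR1
  have hquad : quad M (ac b) r ≤ (4 + CD) * C ^ 2 * (r ^ 2 * X ^ 2) := by
    have h1 := hB M (ac b) r hac hrpos
    have h2 : (2 * r) ^ 2 * (∑ g ∈ Finset.Icc 1 M, ac b g ^ 2) ^ 2 ≤
        4 * C ^ 2 * (r ^ 2 * X ^ 2) := by
      calc (2 * r) ^ 2 * (∑ g ∈ Finset.Icc 1 M, ac b g ^ 2) ^ 2 ≤ (2 * r) ^ 2 * (C * X) ^ 2 := by
            apply mul_le_mul_of_nonneg_left _ (by positivity)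
            exact pow_le_pow_left₀ hsq0 hsq 2
        _ = 4 * C ^ 2 * (r ^ 2 * X ^ 2) := by ring
    have h3 : (∑ p ∈ Finset.Icc 1 M, ∑ q ∈ Finset.Icc 1 M, if p = q then 0 else
        kk r (Real.log p - Real.log q) ^ 2 *
          (∑ g ∈ Finset.Icc 1 M, ac b (g * p) * ac b (g * q)) ^ 2) ≤
        C ^ 2 * X ^ 2 * ∑ p ∈ Finset.Icc 1 M, ∑ q ∈ Finset.Icc 1 M, if p = q then 0 else
        kk r (Real.log p - Real.log q) ^ 2 *
          (Real.exp (-(1 / 2) * (Real.log p - Real.log q) ^ 2) / Real.sqrt (p * q)) ^ 2 := by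
      rw [Finset.mul_sum]
      apply Finset.sum_le_sum
      intro p hp
      rw [Finset.mul_sum]
      apply Finset.sum_le_sum
      intro q hq
      by_cases hpq : p = q
      · simp [hpq]
      · rw [if_neg hpq, if_neg hpq]
        have hp1 := (Finset.mem_Icc.mp hp).1
        have hq1 := (Finset.mem_Icc.mp hq).1
        have h4 := hC_1 p q hp1 hq1
        set E : ℝ := Real.exp (-(1 / 2) * (Real.log p - Real.log q) ^ 2) / Real.sqrt (p * q)
          with hE
        have hE0 : 0 ≤ E := by positivity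
        have h5 : (∑ g ∈ Finset.Icc 1 M, ac b (g * p) * ac b (g * q)) ≤ C * X * E := by
          refine le_trans h4 ?_
          apply mul_le_mul_of_nonneg_right _ hE0
          exact mul_le_mul_of_nonneg_right hC0 hXpos.le
        have h6 : 0 ≤ ∑ g ∈ Finset.Icc 1 M, ac b (g * p) * ac b (g * q) :=
          Finset.sum_nonneg fun g _ => mul_nonneg (hac _) (hac _)
        have h7 : (∑ g ∈ Finset.Icc 1 M, ac b (g * p) * ac b (g * q)) ^ 2 ≤ (C * X * E) ^ 2 :=
          pow_le_pow_left₀ h6 h5 2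
        calc kk r (Real.log p - Real.log q) ^ 2 *
            (∑ g ∈ Finset.Icc 1 M, ac b (g * p) * ac b (g * q)) ^ 2 ≤
            kk r (Real.log p - Real.log q) ^ 2 * (C * X * E) ^ 2 := by
              apply mul_le_mul_of_nonneg_left h7 (by positivity)
          _ = C ^ 2 * X ^ 2 * (kk r (Real.log p - Real.log q) ^ 2 * E ^ 2) := by ring
    have h4 := hD M r hM1 hr1
    have h5 : CD0 * r * (1 + Real.log M) ≤ CD * r ^ 2 := by
      calc CD0 * r * (1 + Real.log M) = CD0 * (r * (1 + Real.log M)) := by ring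
        _ ≤ CD * (r * (1 + Real.log M)) := by
            apply mul_le_mul_of_nonneg_right hCD0 (by positivity)
        _ ≤ CD * (r * r) := by
            apply mul_le_mul_of_nonneg_left _ (by positivity)
            exact mul_le_mul_of_nonneg_left hlogM hrpos.le
        _ = CD * r ^ 2 := by ring
    have h6 := le_trans h4 h5
    have h7 := le_trans h3 (mul_le_mul_of_nonneg_left h6 (by positivity))
    calc quad M (ac b) r ≤ _ := h1
      _ ≤ 4 * C ^ 2 * (r ^ 2 * X ^ 2) + C ^ 2 * X ^ 2 * (CD * r ^ 2) := add_le_add h2 h7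
      _ = (4 + CD) * C ^ 2 * (r ^ 2 * X ^ 2) := by ring
  have hcond2 : 128 * Real.exp 6 * C ^ 4 * Real.exp (3 * b) ≤ T := by
    have h2 : b ≤ Real.exp (17 * b) := by
      have := Real.add_one_le_exp (17 * b)
      linarith
    calc 128 * Real.exp 6 * C ^ 4 * Real.exp (3 * b) ≤ Real.exp (17 * b) * Real.exp (3 * b) :=
          mul_le_mul_of_nonneg_right (le_trans hbB h2) (Real.exp_pos _).le
      _ = T := by
          rw [hTb, ← Real.exp_add]
          congr 1
          ring
  have herr : 32 * r ^ 2 * M ^ 2 * SA ^ 4 ≤ T * (r ^ 2 * X ^ 2) := by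
    have h1 : (M : ℝ) * SA ^ 2 ≤ 2 * Real.exp 3 * Real.exp (3 * b / 2) * (C ^ 2 * X) := by
      calc (M : ℝ) * SA ^ 2 ≤ M * (C ^ 2 * X * Real.exp (b / 2)) :=
            mul_le_mul_of_nonneg_left hSA2 (by positivity)
        _ = (M * Real.exp (b / 2)) * (C ^ 2 * X) := by ring
        _ ≤ 2 * Real.exp 3 * Real.exp (3 * b / 2) * (C ^ 2 * X) :=
            mul_le_mul_of_nonneg_right hexp3 (by positivity)
    have h2 : (M * SA ^ 2) ^ 2 ≤ (2 * Real.exp 3 * Real.exp (3 * b / 2) * (C ^ 2 * X)) ^ 2 :=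
      pow_le_pow_left₀ (by positivity) h1 2
    have h3 : Real.exp 3 ^ 2 = Real.exp 6 := by
      rw [← Real.exp_nat_mul]; norm_num
    have h4 : Real.exp (3 * b / 2) ^ 2 = Real.exp (3 * b) := by
      rw [← Real.exp_nat_mul]
      congr 1
      push_cast
      ring
    calc 32 * r ^ 2 * M ^ 2 * SA ^ 4 = 32 * r ^ 2 * (M * SA ^ 2) ^ 2 := by ring
      _ ≤ 32 * r ^ 2 * (2 * Real.exp 3 * Real.exp (3 * b / 2) * (C ^ 2 * X)) ^ 2 :=
          mul_le_mul_of_nonneg_left h2 (by positivity)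
      _ = (128 * Real.exp 3 ^ 2 * C ^ 4 * Real.exp (3 * b / 2) ^ 2) * (r ^ 2 * X ^ 2) := by ring
      _ = (128 * Real.exp 6 * C ^ 4 * Real.exp (3 * b)) * (r ^ 2 * X ^ 2) := by rw [h3, h4]
      _ ≤ T * (r ^ 2 * X ^ 2) := mul_le_mul_of_nonneg_right hcond2 (by positivity)
  have hsecond : (∫ y in T..(2 * T), Q M (ac b) r y ^ 2) ≤ (C' * (r ^ 2 * X ^ 2)) * T := by
    have h1 : T * quad M (ac b) r ≤ T * ((4 + CD) * C ^ 2 * (r ^ 2 * X ^ 2)) :=
      mul_le_mul_of_nonneg_left hquad hTpos.le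
    calc (∫ y in T..(2 * T), Q M (ac b) r y ^ 2) ≤ _ := hA2
      _ ≤ T * ((4 + CD) * C ^ 2 * (r ^ 2 * X ^ 2)) + T * (r ^ 2 * X ^ 2) := add_le_add h1 herr
      _ = (C' * (r ^ 2 * X ^ 2)) * T := by rw [hC']; ring
  -- the set
  obtain ⟨A, hAm, hAsub, hAq, hAvol⟩ := pz T (c * r * X / 2) (C' * (r ^ 2 * X ^ 2)) hTpos
    (by positivity) (by positivity) (Q M (ac b) r) (Q_cont _ _ _)
    (fun y => Q_nonneg _ _ _ _ hrpos.le) hfirst hsecond
  refine ⟨A, hAm, ?_, ?_⟩
  · intro y hy
    refine ⟨hAsub hy, ?_⟩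
    have h1 : 2 * r * (c * X / 8) < Q M (ac b) r y := by
      refine lt_of_lt_of_le ?_ (hAq y hy)
      have : 0 < c * r * X := by positivity
      nlinarith
    obtain ⟨u, hu1, hu2⟩ := exists_large M (ac b) r y (c * X / 8) hrpos h1
    refine ⟨u, ?_, ?_⟩
    · have : Real.log T / 2 = r := by
        rw [hr, hb]; ring
      rw [this]
      exact hu1
    · have h2 := hC_4 u
      have h3 : ‖P M (ac b) u‖ ≤ ‖D (-(b : ℂ) + I * u)‖ + C := by
        have h4 : P M (ac b) u = D (-(b : ℂ) + I * u) -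
            (D (-(b : ℂ) + I * u) - P M (ac b) u) := by ring
        calc ‖P M (ac b) u‖ = ‖D (-(b : ℂ) + I * u) -
            (D (-(b : ℂ) + I * u) - P M (ac b) u)‖ := by rw [← h4]
          _ ≤ ‖D (-(b : ℂ) + I * u)‖ + ‖D (-(b : ℂ) + I * u) - P M (ac b) u‖ := norm_sub_le _ _
          _ ≤ ‖D (-(b : ℂ) + I * u)‖ + C := by linarith
      have h5 : Real.sqrt (c / 8) * Real.exp (b ^ 2 / 4 + b / 4) ≤ ‖P M (ac b) u‖ := by
        have h6 : (Real.sqrt (c / 8) * Real.exp (b ^ 2 / 4 + b / 4)) ^ 2 = c * X / 8 := by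
          rw [mul_pow, Real.sq_sqrt (by positivity), ← Real.exp_nat_mul, hX]
          have : ((2 : ℕ) : ℝ) * (b ^ 2 / 4 + b / 4) = b ^ 2 / 2 + b / 2 := by
            push_cast; ring
          rw [this]
          ring
        have h7 : (Real.sqrt (c / 8) * Real.exp (b ^ 2 / 4 + b / 4)) ^ 2 ≤
            ‖P M (ac b) u‖ ^ 2 := by
          rw [h6]; exact hu2.le
        exact (abs_le_of_sq_le_sq' h7 (norm_nonneg _)).2
      have h8 : Real.exp (b ^ 2 / 4) / 2 + C ≤
          Real.sqrt (c / 8) * Real.exp (b ^ 2 / 4 + b / 4) := by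
        have hs : 0 < Real.sqrt (c / 8) := Real.sqrt_pos.mpr (by positivity)
        have h9 : 1 / 2 + C ≤ Real.sqrt (c / 8) * Real.exp (b / 4) := by
          have h10 : (1 / 2 + C) / Real.sqrt (c / 8) ≤ b / 4 := by linarith
          have h11 : b / 4 ≤ Real.exp (b / 4) := by
            have := Real.add_one_le_exp (b / 4)
            linarith
          have h12 := le_trans h10 h11
          rw [div_le_iff₀ hs] at h12
          linarith
        have h10 : 1 ≤ Real.exp (b ^ 2 / 4) := Real.one_le_exp (by positivity)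
        calc Real.exp (b ^ 2 / 4) / 2 + C ≤ Real.exp (b ^ 2 / 4) / 2 + C * Real.exp (b ^ 2 / 4) := by
              nlinarith
          _ = Real.exp (b ^ 2 / 4) * (1 / 2 + C) := by ring
          _ ≤ Real.exp (b ^ 2 / 4) * (Real.sqrt (c / 8) * Real.exp (b / 4)) :=
              mul_le_mul_of_nonneg_left h9 (Real.exp_pos _).le
          _ = Real.sqrt (c / 8) * Real.exp (b ^ 2 / 4 + b / 4) := by
              rw [Real.exp_add]; ring
      have h13 : Real.exp (b ^ 2 / 4) / 2 ≤ ‖D (-(b : ℂ) + I * u)‖ := by linarith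
      exact h13
  · refine le_trans (le_of_eq ?_) hAvol
    congr 1
    field_simp
    ring

end Pool.Agent.W27.XI
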